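import Pool.Agent.P.MP_342f9e_an.HolesC

set_option autoImplicit false

open MeasureTheory

namespace Pool.Agent.Results.MP_342f9e_an.Holes

/-- The first Robin eigenvalue of `Ω` with boundary parameter `α`: the infimum, in the extended
reals, of the Rayleigh quotient over the restrictions to `Ω` of smooth compactly supported
functions on the plane which do not vanish in `L²(Ω)`. -/
noncomputable def robin (α : ℝ) (Ω : Set ℂ) : EReal :=
  ⨅ (u : ℂ → ℝ) (_ : ContDiff ℝ (⊤ : ℕ∞) u ∧ HasCompactSupport u ∧ 0 < ∫ x in Ω, u x ^ 2),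
    ((((∫ x in Ω, ‖fderiv ℝ u x‖ ^ 2) +
      α * ∫ x in frontier Ω, u x ^ 2 ∂(Measure.hausdorffMeasure (1 : ℝ))) / ∫ x in Ω, u x ^ 2 : ℝ) :
        EReal)

/-- near each boundary point `Ω` is, after a rotation, the region below a Lipschitz graph -/
def LipschitzBoundary (Ω : Set ℂ) : Prop :=
  ∀ p ∈ frontier Ω, ∃ w : ℂ, ‖w‖ = 1 ∧ ∃ r : ℝ, 0 < r ∧ ∃ K : NNReal, ∃ g : ℝ → ℝ,
    LipschitzWith K g ∧ ∀ x ∈ Metric.ball p r, (x ∈ Ω ↔ (w * x).im < g ((w * x).re))

/-- the admissible thickness of the holes -/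
noncomputable def thick (α R : ℝ) : ℝ :=
  R * Real.exp (-(2 * (|α| * R)) - 6) / (|α| * R + 4) ^ 2

/-- The disk maximises the first Robin eigenvalue with negative boundary parameter among the
domains of given area obtained from a bounded simply connected Lipschitz domain by removing a
compact set `K` (any number of holes, or none) which is small or thin. -/
theorem result (α : ℝ) (hα : α < 0) (Ω : Set ℂ) (ho : IsOpen Ω) (hb : Bornology.IsBounded Ω)
    (hs : SimplyConnectedSpace Ω) (hl : LipschitzBoundary Ω) (K : Set ℂ) (hK : IsCompact K)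
    (hKΩ : K ⊆ Ω) (hf : Measure.hausdorffMeasure (1 : ℝ) (frontier K) < ⊤) (R : ℝ) (hR : 0 < R)
    (hA : Real.pi * R ^ 2 = (volume (Ω \ K)).toReal)
    (hV : (volume K).toReal ≤ thick α R *
      max (thick α R) (Measure.hausdorffMeasure (1 : ℝ) (frontier K)).toReal) :
    robin α (Ω \ K) ≤ robin α (Metric.ball 0 R) := by
  refine le_iInf₂ fun v hv => ?_
  refine EReal.le_of_forall_lt_iff_le.1 fun z hz => ?_
  have hz' := EReal.coe_lt_coe_iff.1 hz
  obtain ⟨u, h1, h2, h3, h4⟩ := Pool.Agent.P.MP_342f9e_an.Holes.final_holes hα ho hb hs hl hK hKΩ hf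
    hR hA rfl hV hv.1 hv.2.2 (sub_pos.2 hz')
  exact iInf₂_le_of_le u ⟨h1, h2, h3⟩ (EReal.coe_le_coe_iff.2 (by linarith))

/-- Q1 is the case `K = ∅`. -/
theorem noHole (α : ℝ) (hα : α < 0) (Ω : Set ℂ) (ho : IsOpen Ω) (hb : Bornology.IsBounded Ω)
    (hs : SimplyConnectedSpace Ω) (hl : LipschitzBoundary Ω) (R : ℝ) (hR : 0 < R)
    (hA : Real.pi * R ^ 2 = (volume Ω).toReal) : robin α Ω ≤ robin α (Metric.ball 0 R) := by
  have h := result α hα Ω ho hb hs hl ∅ isCompact_empty (Set.empty_subset _) (by simp) R hR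
    (by rwa [Set.sdiff_empty]) (by
      have : 0 ≤ thick α R := by unfold thick; positivity
      simp only [measure_empty, ENNReal.toReal_zero]
      exact mul_nonneg this (this.trans (le_max_left _ _)))
  rwa [Set.sdiff_empty] at h

end Pool.Agent.Results.MP_342f9e_an.Holes
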